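import Pool.Agent.H2.HM.Clo

set_option autoImplicit false

/-!
A Polish space `X` is sigma-compact if and only if the classes of each closed equivalence relation
on `X` are separated by countably many invariant open sets; for zero-dimensional `X`, if and only if
each closed equivalence relation on `X` has a continuous reduction to the jump of equality.
-/

namespace Pool.Agent.Results.MP_b0da28_lc.SigmaCompactSpaces

open Set Topology TopologicalSpace

/-- `E` is closed in `X × X`. -/
def IsClosedRel {X : Type} [TopologicalSpace X] (E : Setoid X) : Prop :=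
  IsClosed {p : X × X | E p.1 p.2}

/-- `E` is smooth: a Borel map to a Polish space has the classes of `E` as its fibres. -/
def IsSmooth {X : Type} [TopologicalSpace X] (E : Setoid X) : Prop :=
  ∃ (Z : Type) (_ : TopologicalSpace Z) (_ : PolishSpace Z) (g : X → Z),
    @Measurable X Z (borel X) (borel Z) g ∧ ∀ x y, E x y ↔ g x = g y

/-- The classes of `E` have at most two elements. -/
def SmallClasses {X : Type} (E : Setoid X) : Prop :=
  ∀ x y z, E x y → E x z → x = y ∨ x = z ∨ y = z

/-- `E` has a continuous reduction to the Friedman-Stanley jump of equality on the Baire space. -/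
def ReducibleToJump {X : Type} [TopologicalSpace X] (E : Setoid X) : Prop :=
  ∃ f : X → (ℕ → (ℕ → ℕ)), Continuous f ∧ ∀ x y, E x y ↔ range (f x) = range (f y)

/-- `E` has a continuous reduction to the relation of having the same range on the Baire space. -/
def ReducibleToRange {X : Type} [TopologicalSpace X] (E : Setoid X) : Prop :=
  ∃ f : X → (ℕ → ℕ), Continuous f ∧ ∀ x y, E x y ↔ range (f x) = range (f y)

/-- Countably many invariant open sets separate the classes of `E`. -/
def OpenSeparated {X : Type} [TopologicalSpace X] (E : Setoid X) : Prop :=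
  ∃ U : ℕ → Set X, (∀ n, IsOpen (U n)) ∧ (∀ n x y, E x y → x ∈ U n → y ∈ U n) ∧
    ∀ x y, (∀ n, x ∈ U n ↔ y ∈ U n) → E x y

/-- The clopen sets form a basis. -/
def ZeroDimensional (X : Type) [TopologicalSpace X] : Prop :=
  ∀ (U : Set X) (x : X), IsOpen U → x ∈ U → ∃ V, IsClopen V ∧ x ∈ V ∧ V ⊆ U

/-- **Theorem.** (1) For every Polish space `X` the following are equivalent: `X` is sigma-compact;
the classes of each closed equivalence relation on `X` are separated by countably many invariant
open sets; the same for the smooth closed equivalence relations with classes of at most two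
elements. (2) For every zero-dimensional Polish space `X` the following are equivalent: `X` is
sigma-compact; each closed equivalence relation on `X` has a continuous reduction to the relation of
having the same range on the Baire space; each has a continuous reduction to the jump of equality;
each closed smooth one with classes of at most two elements has such a reduction. (3) Some closed
smooth equivalence relation on the Baire space with classes of at most two elements has no
continuous reduction to the jump of equality. -/
theorem result :
    (∀ (X : Type) [TopologicalSpace X] [PolishSpace X], List.TFAE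
      [SigmaCompactSpace X,
        ∀ E : Setoid X, IsClosedRel E → OpenSeparated E,
        ∀ E : Setoid X, IsClosedRel E → IsSmooth E → SmallClasses E → OpenSeparated E]) ∧
    (∀ (X : Type) [TopologicalSpace X] [PolishSpace X], ZeroDimensional X → List.TFAE
      [SigmaCompactSpace X,
        ∀ E : Setoid X, IsClosedRel E → ReducibleToRange E,
        ∀ E : Setoid X, IsClosedRel E → ReducibleToJump E,
        ∀ E : Setoid X, IsClosedRel E → IsSmooth E → SmallClasses E → ReducibleToJump E]) ∧
    ∃ E : Setoid (ℕ → ℕ), IsClosedRel E ∧ IsSmooth E ∧ SmallClasses E ∧ ¬ ReducibleToJump E := by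
  have hc : ∀ (X : Type) [TopologicalSpace X] [PolishSpace X], ¬ SigmaCompactSpace X →
      ∃ E : Setoid X, IsClosedRel E ∧ IsSmooth E ∧ SmallClasses E ∧ ¬ OpenSeparated E ∧
        ¬ ReducibleToJump E := by
    intro X _ _ hX
    obtain ⟨e, he⟩ := Pool.Agent.H2.HM.exists_baire X hX
    exact Pool.Agent.H2.HM.counter he
  refine ⟨fun X _ _ => ?_, fun X _ _ h0 => ?_, ?_⟩
  · tfae_have 1 → 2 := fun _ E hE => Pool.Agent.H2.HM.sepd_sigma X hE
    tfae_have 2 → 3 := fun h E hE _ _ => h E hE
    tfae_have 3 → 1 := by
      intro h
      by_contra hX
      obtain ⟨E, h1, h2, h3, h4, -⟩ := hc X hX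
      exact h4 (h E h1 h2 h3)
    tfae_finish
  · tfae_have 1 → 2 := fun _ E hE =>
      Pool.Agent.H2.HM.red_of_sepd h0 (Pool.Agent.H2.HM.sepd_sigma X hE)
    tfae_have 2 → 3 := fun h E hE => Pool.Agent.H2.HM.rj_of (h E hE)
    tfae_have 3 → 4 := fun h E hE _ _ => h E hE
    tfae_have 4 → 1 := by
      intro h
      by_contra hX
      obtain ⟨E, h1, h2, h3, -, h5⟩ := hc X hX
      exact h5 (h E h1 h2 h3)
    tfae_finish
  · obtain ⟨E, h1, h2, h3, -, h5⟩ := Pool.Agent.H2.HM.counter
      (Topology.IsClosedEmbedding.id (X := ℕ → ℕ))
    exact ⟨E, h1, h2, h3, h5⟩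

end Pool.Agent.Results.MP_b0da28_lc.SigmaCompactSpaces
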